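import Pool.Agent.Helper81.XP.StA
import Pool.Agent.Helper81.XP.StB

set_option autoImplicit false

/-!
MP_f90738_co, module UPR: non-concentration bounds the number of vanishing double commutators.
-/

open Finset
open scoped Pointwise LinearAlgebra.Projectivization

namespace Pool.Agent.Helper63.XP

open Pool.Agent.Helper81.XP

section act

variable {K : Type} [Field K]

theorem upr_neg_smul (g : SL K) (ξ : Pt K) : (-g) • ξ = g • ξ := by
  induction ξ using Projectivization.ind with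
  | h v hv =>
    rw [Projectivization.smul_mk, Projectivization.smul_mk, Projectivization.mk_eq_mk_iff']
    refine ⟨-1, ?_⟩
    ext i
    simp [Matrix.SpecialLinearGroup.smul_def, Matrix.neg_mulVec]

theorem upr_neg_one_smul (ξ : Pt K) : (-1 : SL K) • ξ = ξ := by
  rw [upr_neg_smul, one_smul]

theorem upr_pt (K : Type) [Field K] : Nonempty (Pt K) :=
  ⟨Projectivization.mk K (![1, 0] : Fin 2 → K) (by
    intro h
    have := congrFun h 0
    simp at this)⟩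

end act

section cnt

variable {W : Type} [Fintype W]

theorem upr_split (B : Finset W) (F : W → ℝ) (M m β : ℝ) (hM : ∀ w, F w ≤ M)
    (hm : ∀ w, w ∉ B → F w ≤ m) (hm0 : 0 ≤ m) (hM0 : 0 ≤ M) (hB : (B.card : ℝ) ≤ β) :
    ∑ w, F w ≤ β * M + (Fintype.card W : ℝ) * m := by
  classical
  have h1 : ∀ w, F w ≤ (if w ∈ B then M else 0) + m := by
    intro w
    by_cases h : w ∈ B
    · rw [if_pos h]; linarith [hM w]
    · rw [if_neg h]; linarith [hm w h]
  calc ∑ w, F w ≤ ∑ w, ((if w ∈ B then M else 0) + m) := Finset.sum_le_sum (fun w _ => h1 w)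
    _ = (B.card : ℝ) * M + (Fintype.card W : ℝ) * m := by
        rw [Finset.sum_add_distrib, Finset.sum_const, Finset.card_univ, nsmul_eq_mul,
          ← Finset.sum_filter, Finset.filter_mem_eq_inter, Finset.univ_inter, Finset.sum_const,
          nsmul_eq_mul]
    _ ≤ β * M + (Fintype.card W : ℝ) * m := by
        have := mul_le_mul_of_nonneg_right hB hM0
        linarith

theorem upr_union {A B : Finset W} {x y : ℝ} [DecidableEq W] (hA : (A.card : ℝ) ≤ x)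
    (hB : (B.card : ℝ) ≤ y) : ((A ∪ B).card : ℝ) ≤ x + y := by
  have h : ((A ∪ B).card : ℝ) ≤ (A.card : ℝ) + (B.card : ℝ) := by
    exact_mod_cast Finset.card_union_le A B
  linarith

theorem upr_sub {A B : Finset W} {x : ℝ} (h : A ⊆ B) (hB : (B.card : ℝ) ≤ x) :
    (A.card : ℝ) ≤ x := by
  have h1 : (A.card : ℝ) ≤ (B.card : ℝ) := by exact_mod_cast Finset.card_le_card h
  linarith

end cnt

section grp

variable {Γ : Type} [Group Γ]

theorem upr_ct_eq {g h v : Γ} (hc : ct g h = v) : g * h = v * (h * g) := by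
  unfold ct at hc
  rw [← hc]
  group

end grp

section main

variable {K : Type} [Field K] [IsAlgClosed K]

theorem upr_fix (hFIX : ST_FIX) (g : SL K) (h1 : g ≠ 1) (h2 : g ≠ -1) :
    ∃ ξ1 ξ2 : Pt K, ∀ ξ : Pt K, g • ξ = ξ ↔ ξ = ξ1 ∨ ξ = ξ2 := by
  obtain ⟨ξ1, ξ2, h, _⟩ := hFIX K g h1 h2
  exact ⟨ξ1, ξ2, h⟩

variable {W : Type} [Fintype W] [DecidableEq W] (f : W → SL K) (θ : ℝ)

/-- the non-concentration in abstract form -/
def UNC : Prop := ∀ ξ ξ' : Pt K, ∀ S : Finset W, (∀ w ∈ S, f w • ξ = ξ') →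
  (S.card : ℝ) ≤ θ * (Fintype.card W : ℝ)

variable {f θ}

theorem upr_pm (hf : UNC f θ) (S : Finset W) (hS : ∀ w ∈ S, f w = 1 ∨ f w = -1) :
    (S.card : ℝ) ≤ θ * (Fintype.card W : ℝ) := by
  obtain ⟨ξ⟩ := upr_pt K
  apply hf ξ ξ
  intro w hw
  rcases hS w hw with h | h
  · rw [h, one_smul]
  · rw [h, upr_neg_one_smul]

theorem upr_two (hf : UNC f θ) (ξ ξ1 ξ2 : Pt K) (S : Finset W)
    (hS : ∀ w ∈ S, f w • ξ = ξ1 ∨ f w • ξ = ξ2) :
    (S.card : ℝ) ≤ 2 * θ * (Fintype.card W : ℝ) := by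
  classical
  have h1 : ((S.filter (fun w => f w • ξ = ξ1)).card : ℝ) ≤ θ * (Fintype.card W : ℝ) := by
    apply hf ξ ξ1
    intro w hw
    exact (Finset.mem_filter.1 hw).2
  have h2 : ((S.filter (fun w => f w • ξ = ξ2)).card : ℝ) ≤ θ * (Fintype.card W : ℝ) := by
    apply hf ξ ξ2
    intro w hw
    exact (Finset.mem_filter.1 hw).2
  have h3 : S ⊆ S.filter (fun w => f w • ξ = ξ1) ∪ S.filter (fun w => f w • ξ = ξ2) := by
    intro w hw
    rcases hS w hw with h | h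
    · exact Finset.mem_union_left _ (Finset.mem_filter.2 ⟨hw, h⟩)
    · exact Finset.mem_union_right _ (Finset.mem_filter.2 ⟨hw, h⟩)
  have h4 := upr_sub h3 (upr_union h1 h2)
  linarith

/-- second step: few `g1` with central commutator -/
theorem upr_step2 (hFIX : ST_FIX) (hf : UNC f θ) (g : SL K) (h1 : g ≠ 1) (h2 : g ≠ -1)
    (S : Finset W) (hS : ∀ w ∈ S, ct g (f w) = 1 ∨ ct g (f w) = -1) :
    (S.card : ℝ) ≤ 2 * θ * (Fintype.card W : ℝ) := by
  obtain ⟨ξ1, ξ2, hfix⟩ := upr_fix hFIX g h1 h2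
  apply upr_two hf ξ1 ξ1 ξ2 S
  intro w hw
  rw [← hfix]
  have hg : g • ξ1 = ξ1 := (hfix ξ1).2 (Or.inl rfl)
  rcases hS w hw with h | h
  · have e := upr_ct_eq h
    rw [one_mul] at e
    rw [← mul_smul, e, mul_smul, hg]
  · have e := upr_ct_eq h
    rw [neg_one_mul] at e
    rw [← mul_smul, e, upr_neg_smul, mul_smul, hg]

/-- last step: few `g3` with a prescribed value of the commutator -/
theorem upr_step4 (hFIX : ST_FIX) (hf : UNC f θ) (g v : SL K) (h1 : g ≠ 1) (h2 : g ≠ -1)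
    (S : Finset W) (hS : ∀ w ∈ S, ct g (f w) = v) :
    (S.card : ℝ) ≤ 2 * θ * (Fintype.card W : ℝ) := by
  rcases S.eq_empty_or_nonempty with hemp | ⟨w0, hw0⟩
  · rw [hemp]
    have h0 := upr_pm hf ∅ (by simp)
    simp only [Finset.card_empty, Nat.cast_zero] at h0 ⊢
    linarith
  have hk : ∀ w ∈ S, f w * g⁻¹ * (f w)⁻¹ = g⁻¹ * v := by
    intro w hw
    rw [← hS w hw]
    unfold ct
    group
  have hk0 := hk w0 hw0
  have ginv : ∀ e : SL K, (e = 1 ∨ e = -1) → g⁻¹ * v ≠ e := by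
    intro e he hcon
    rw [hcon] at hk0
    have e1 : g⁻¹ = (f w0)⁻¹ * e * f w0 := by
      rw [← hk0]; group
    rcases he with he | he
    · rw [he, mul_one, inv_mul_cancel] at e1
      exact h1 (inv_eq_one.1 e1)
    · rw [he] at e1
      have e2 : g⁻¹ = -1 := by
        rw [e1, mul_neg, mul_one, neg_mul, inv_mul_cancel]
      have e3 : g = (-1 : SL K)⁻¹ := by rw [← e2, inv_inv]
      have e4 : (-1 : SL K)⁻¹ = -1 := by
        rw [inv_eq_iff_mul_eq_one, neg_mul_neg, one_mul]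
      exact h2 (e3.trans e4)
  obtain ⟨ξ1, ξ2, hfix⟩ := upr_fix hFIX (g⁻¹ * v) (ginv 1 (Or.inl rfl)) (ginv (-1) (Or.inr rfl))
  obtain ⟨η, _, hη⟩ := upr_fix hFIX g h1 h2
  have hgη : g • η = η := (hη η).2 (Or.inl rfl)
  have hgη' : g⁻¹ • η = η := by
    rw [inv_smul_eq_iff]; exact hgη.symm
  apply upr_two hf η ξ1 ξ2 S
  intro w hw
  rw [← hfix, ← hk w hw, ← mul_smul]
  have e : f w * g⁻¹ * (f w)⁻¹ * f w = f w * g⁻¹ := by group
  rw [e, mul_smul, hgη']

theorem upr_tr_conj (g x : SL K) : tr (x * g * x⁻¹) = tr g := by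
  unfold tr
  rw [Matrix.SpecialLinearGroup.coe_mul, Matrix.trace_mul_comm,
    ← Matrix.SpecialLinearGroup.coe_mul, ← mul_assoc, inv_mul_cancel, one_mul]

/-- third step -/
theorem upr_step3 (hTRL : ST_TRL) (hFIX : ST_FIX) (hf : UNC f θ) (g c : SL K) (h1 : g ≠ 1)
    (h2 : g ≠ -1) (c1 : c ≠ 1) (c2 : c ≠ -1)
    (hgc : ∀ ξ ξ' : Pt K, c • ξ = ξ → c • ξ' = ξ' → g • ξ ≠ ξ')
    (S : Finset W) (hS : ∀ w ∈ S, ct c (ct g (f w)) = 1) :
    (S.card : ℝ) ≤ 4 * θ * (Fintype.card W : ℝ) := by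
  classical
  have hgc' : ∀ ξ ξ' : Pt K, c • ξ = ξ → c • ξ' = ξ' → g⁻¹ • ξ ≠ ξ' := by
    intro ξ ξ' hξ hξ' hcon
    rw [inv_smul_eq_iff] at hcon
    exact hgc ξ' ξ hξ' hξ hcon.symm
  obtain ⟨h, hh⟩ := hTRL K g⁻¹ c c1 c2 hgc'
  have hval : ∀ w ∈ S, ct g (f w) = 1 ∨ ct g (f w) = h := by
    intro w hw
    apply hh
    · have e := upr_ct_eq (hS w hw)
      rw [one_mul] at e
      exact e.symm
    · have e : g⁻¹ * ct g (f w) = f w * g⁻¹ * (f w)⁻¹ := by
        unfold ct; group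
      rw [e, upr_tr_conj]
  have s1 := upr_step4 hFIX hf g 1 h1 h2 (S.filter (fun w => ct g (f w) = 1))
    (fun w hw => (Finset.mem_filter.1 hw).2)
  have s2 := upr_step4 hFIX hf g h h1 h2 (S.filter (fun w => ct g (f w) = h))
    (fun w hw => (Finset.mem_filter.1 hw).2)
  have h3 : S ⊆ S.filter (fun w => ct g (f w) = 1) ∪ S.filter (fun w => ct g (f w) = h) := by
    intro w hw
    rcases hval w hw with h' | h'
    · exact Finset.mem_union_left _ (Finset.mem_filter.2 ⟨hw, h'⟩)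
    · exact Finset.mem_union_right _ (Finset.mem_filter.2 ⟨hw, h'⟩)
  have h4 := upr_sub h3 (upr_union s1 s2)
  linarith

open Classical in
theorem upr_count (hTRL : ST_TRL) (hFIX : ST_FIX) (hf : UNC f θ) (hθ : 0 ≤ θ) :
    ∑ w0, ∑ w1, ∑ w2, ∑ w3, (if dc (f w0) (f w1) (f w2) (f w3) = 1 then (1 : ℝ) else 0)
      ≤ 12 * θ * (Fintype.card W : ℝ) ^ 4 := by
  set N : ℝ := (Fintype.card W : ℝ) with hN
  have N0 : 0 ≤ N := Nat.cast_nonneg _
  -- trivial bounds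
  have b3 : ∀ w0 w1 w2, ∑ w3, (if dc (f w0) (f w1) (f w2) (f w3) = 1 then (1 : ℝ) else 0) ≤ N := by
    intro w0 w1 w2
    calc ∑ w3, (if dc (f w0) (f w1) (f w2) (f w3) = 1 then (1 : ℝ) else 0)
        ≤ ∑ _w3 : W, (1 : ℝ) := Finset.sum_le_sum (fun w _ => by split_ifs <;> norm_num)
      _ = N := by rw [Finset.sum_const, Finset.card_univ, nsmul_eq_mul, mul_one]
  have b2 : ∀ w0 w1, ∑ w2, ∑ w3, (if dc (f w0) (f w1) (f w2) (f w3) = 1 then (1 : ℝ) else 0)
      ≤ N ^ 2 := by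
    intro w0 w1
    calc ∑ w2, ∑ w3, (if dc (f w0) (f w1) (f w2) (f w3) = 1 then (1 : ℝ) else 0)
        ≤ ∑ _w2 : W, N := Finset.sum_le_sum (fun w _ => b3 w0 w1 w)
      _ = N ^ 2 := by rw [Finset.sum_const, Finset.card_univ, nsmul_eq_mul, pow_two]
  have b1 : ∀ w0, ∑ w1, ∑ w2, ∑ w3,
      (if dc (f w0) (f w1) (f w2) (f w3) = 1 then (1 : ℝ) else 0) ≤ N ^ 3 := by
    intro w0
    calc ∑ w1, ∑ w2, ∑ w3, (if dc (f w0) (f w1) (f w2) (f w3) = 1 then (1 : ℝ) else 0)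
        ≤ ∑ _w1 : W, N ^ 2 := Finset.sum_le_sum (fun w _ => b2 w0 w)
      _ = N ^ 3 := by rw [Finset.sum_const, Finset.card_univ, nsmul_eq_mul]; ring
  -- third level
  have k3 : ∀ w0 w1, ct (f w0) (f w1) ≠ 1 → ct (f w0) (f w1) ≠ -1 →
      ∑ w2, ∑ w3, (if dc (f w0) (f w1) (f w2) (f w3) = 1 then (1 : ℝ) else 0)
        ≤ (5 * θ * N) * N + N * (4 * θ * N) := by
    intro w0 w1 hc1 hc2
    obtain ⟨ξ1, ξ2, hfix⟩ := upr_fix hFIX (ct (f w0) (f w1)) hc1 hc2
    set B1 : Finset W := univ.filter (fun w => f w = 1 ∨ f w = -1) with hB1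
    set B2 : Finset W := univ.filter (fun w => f w • ξ1 = ξ1 ∨ f w • ξ1 = ξ2) with hB2
    set B3 : Finset W := univ.filter (fun w => f w • ξ2 = ξ1 ∨ f w • ξ2 = ξ2) with hB3
    have c1 : (B1.card : ℝ) ≤ θ * N := upr_pm hf B1 (fun w hw => (Finset.mem_filter.1 hw).2)
    have c2 : (B2.card : ℝ) ≤ 2 * θ * N :=
      upr_two hf ξ1 ξ1 ξ2 B2 (fun w hw => (Finset.mem_filter.1 hw).2)
    have c3 : (B3.card : ℝ) ≤ 2 * θ * N :=
      upr_two hf ξ2 ξ1 ξ2 B3 (fun w hw => (Finset.mem_filter.1 hw).2)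
    have c4 : (((B1 ∪ B2) ∪ B3).card : ℝ) ≤ 5 * θ * N := by
      have := upr_union (upr_union c1 c2) c3
      linarith
    apply upr_split ((B1 ∪ B2) ∪ B3) _ N (4 * θ * N) (5 * θ * N) (fun w => b3 w0 w1 w) _
      (by positivity) N0 c4
    intro w hw
    rw [Finset.mem_union, Finset.mem_union, not_or, not_or] at hw
    obtain ⟨⟨hw1, hw2⟩, hw3⟩ := hw
    have hw1' : ¬ (f w = 1 ∨ f w = -1) := fun h => hw1 (Finset.mem_filter.2 ⟨Finset.mem_univ _, h⟩)
    have hw2' : ¬ (f w • ξ1 = ξ1 ∨ f w • ξ1 = ξ2) :=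
      fun h => hw2 (Finset.mem_filter.2 ⟨Finset.mem_univ _, h⟩)
    have hw3' : ¬ (f w • ξ2 = ξ1 ∨ f w • ξ2 = ξ2) :=
      fun h => hw3 (Finset.mem_filter.2 ⟨Finset.mem_univ _, h⟩)
    rw [not_or] at hw1' hw2' hw3'
    have hgc : ∀ ξ ξ' : Pt K, ct (f w0) (f w1) • ξ = ξ → ct (f w0) (f w1) • ξ' = ξ' →
        f w • ξ ≠ ξ' := by
      intro ξ ξ' hξ hξ' hcon
      rcases (hfix ξ).1 hξ with h | h
      · rcases (hfix ξ').1 hξ' with h' | h'
        · rw [h, h'] at hcon; exact hw2'.1 hcon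
        · rw [h, h'] at hcon; exact hw2'.2 hcon
      · rcases (hfix ξ').1 hξ' with h' | h'
        · rw [h, h'] at hcon; exact hw3'.1 hcon
        · rw [h, h'] at hcon; exact hw3'.2 hcon
    have h5 := upr_step3 hTRL hFIX hf (f w) (ct (f w0) (f w1)) hw1'.1 hw1'.2 hc1 hc2 hgc
      (univ.filter (fun w3 => dc (f w0) (f w1) (f w) (f w3) = 1))
      (fun w3 hw3 => (Finset.mem_filter.1 hw3).2)
    rw [← Finset.sum_filter, Finset.sum_const, nsmul_eq_mul, mul_one]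
    exact h5
  -- second level
  have k2 : ∀ w0, f w0 ≠ 1 → f w0 ≠ -1 → ∑ w1, ∑ w2, ∑ w3,
      (if dc (f w0) (f w1) (f w2) (f w3) = 1 then (1 : ℝ) else 0)
        ≤ (2 * θ * N) * N ^ 2 + N * ((5 * θ * N) * N + N * (4 * θ * N)) := by
    intro w0 h01 h02
    set B : Finset W := univ.filter (fun w => ct (f w0) (f w) = 1 ∨ ct (f w0) (f w) = -1) with hB
    have cB : (B.card : ℝ) ≤ 2 * θ * N :=
      upr_step2 hFIX hf (f w0) h01 h02 B (fun w hw => (Finset.mem_filter.1 hw).2)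
    apply upr_split B _ (N ^ 2) _ (2 * θ * N) (fun w => b2 w0 w) _ (by positivity)
      (by positivity) cB
    intro w hw
    have hw' : ¬ (ct (f w0) (f w) = 1 ∨ ct (f w0) (f w) = -1) :=
      fun h => hw (Finset.mem_filter.2 ⟨Finset.mem_univ _, h⟩)
    rw [not_or] at hw'
    exact k3 w0 w hw'.1 hw'.2
  -- first level
  set B : Finset W := univ.filter (fun w => f w = 1 ∨ f w = -1) with hB
  have cB : (B.card : ℝ) ≤ θ * N := upr_pm hf B (fun w hw => (Finset.mem_filter.1 hw).2)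
  have fin := upr_split B (fun w0 => ∑ w1, ∑ w2, ∑ w3,
      (if dc (f w0) (f w1) (f w2) (f w3) = 1 then (1 : ℝ) else 0)) (N ^ 3)
      ((2 * θ * N) * N ^ 2 + N * ((5 * θ * N) * N + N * (4 * θ * N))) (θ * N) b1
      (by
        intro w hw
        have hw' : ¬ (f w = 1 ∨ f w = -1) :=
          fun h => hw (Finset.mem_filter.2 ⟨Finset.mem_univ _, h⟩)
        rw [not_or] at hw'
        exact k2 w hw'.1 hw'.2) (by positivity) (by positivity) cB
  calc _ ≤ _ := fin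
    _ = 12 * θ * N ^ 4 := by rw [← hN]; ring

end main

theorem st_UPR (hTRL : ST_TRL) (hFIX : ST_FIX) : ST_UPR := by
  classical
  intro K _ _ a b n θ hθ hNC
  have hcard : (Fintype.card (Fin n → Fin 5) : ℝ) = (5 : ℝ) ^ n := by
    rw [Fintype.card_fun, Fintype.card_fin, Fintype.card_fin]
    push_cast
    ring
  have hf : UNC (fun w : Fin n → Fin 5 => wd a b w) θ := by
    intro ξ ξ' S hS
    rw [hcard]
    refine le_trans ?_ (hNC ξ ξ')
    have : S ⊆ univ.filter (fun w : Fin n → Fin 5 => wd a b w • ξ = ξ') := by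
      intro w hw
      exact Finset.mem_filter.2 ⟨Finset.mem_univ _, hS w hw⟩
    exact_mod_cast Finset.card_le_card this
  have h := upr_count hTRL hFIX hf hθ
  rw [hcard] at h
  have e : (((univ : Finset (Fin 4 → Fin n → Fin 5)).filter (fun u => dw a b u = 1)).card : ℝ)
      = ∑ w0 : Fin n → Fin 5, ∑ w1 : Fin n → Fin 5, ∑ w2 : Fin n → Fin 5, ∑ w3 : Fin n → Fin 5,
        (if dc (wd a b w0) (wd a b w1) (wd a b w2) (wd a b w3) = 1 then (1 : ℝ) else 0) := by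
    rw [Finset.card_filter, Nat.cast_sum]
    rw [← Fintype.sum_prod_type', ← Fintype.sum_prod_type', ← Fintype.sum_prod_type']
    refine Fintype.sum_equiv
      ⟨fun u => (((u 0, u 1), u 2), u 3), fun t => ![t.1.1.1, t.1.1.2, t.1.2, t.2], ?_, ?_⟩ _ _ ?_
    · intro u
      ext i
      fin_cases i <;> rfl
    · rintro ⟨⟨⟨x, y⟩, z⟩, w⟩
      rfl
    · intro u
      unfold dw
      simp only [Equiv.coe_fn_mk]
      split_ifs <;> simp
  rw [e]
  have h5 : (0 : ℝ) ≤ θ * ((5 : ℝ) ^ n) ^ 4 := by positivity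
  calc _ ≤ 12 * θ * ((5 : ℝ) ^ n) ^ 4 := h
    _ ≤ 20 * θ * ((5 : ℝ) ^ n) ^ 4 := by nlinarith [h5]

end Pool.Agent.Helper63.XP

namespace Pool.Agent.Helper81.XP

theorem st_UPR (hTRL : ST_TRL) (hFIX : ST_FIX) : ST_UPR := Pool.Agent.Helper63.XP.st_UPR hTRL hFIX

end Pool.Agent.Helper81.XP
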